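import Pool.Agent.X253.MN.A4
import Pool.Agent.X253.JC.Fin

/-!
# The field `ℚ(ω, ∛p : p ∈ T)`, its representations and the twists
-/

set_option autoImplicit false
set_option linter.unusedVariables false
set_option linter.unusedSectionVars false

namespace Pool.Agent.X253.MN

open NumberField IsDedekindDomain WeierstrassCurve
open Pool.Agent.Y692.QS (Ei w nr toC toC_inj ns mul_star toC_normSq)
open Pool.Agent.Y715.T.RecG (Pq cs_spec cs_uniq)
open Pool.Agent.Y703.CT (WD Cls NoSplit IsL)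
open Pool.Agent.Y703.CT
open Pool.Agent.W97.MT (ap)
open Pool.Agent.X253.C3
open Pool.Agent.X253.JC (tw GA tw_cls)
open scoped TensorProduct

/-- **The main theorem on a fixed field.** -/
theorem mainT {T : Finset ℕ} (hT : ∀ p ∈ T, p.Prime ∧ p % 9 = 1) (F : Type) [Field F]
    [NumberField F] [DecidableEq F] (J : F) (r : ℕ → F) (hJ2 : J ^ 2 + J + 1 = 0)
    (hr : ∀ p ∈ T, r p ^ 3 = (p : F))
    (hgen : ∀ L : Subfield F, J ∈ L → (∀ p ∈ T, r p ∈ L) → L = ⊤) :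
    Module.finrank ℚ F = 2 * 3 ^ T.card ∧ IsGalois ℚ F ∧
    (∀ p : ℕ, p.Prime → ∃ (u : HeightOneSpectrum (𝓞 F)) (σ : F ≃ₐ[ℚ] F), IsFrobQ σ p u) ∧
    (∀ D : ℕ, Cls D → (∀ t ∈ T, ¬ t ∣ D) → GA T Finset.univ D →
      Finite ((Ec ((D : ℕ) : ℚ)).baseChange F).toAffine.Point) ∧
    ∀ (V : Type) [AddCommGroup V] [Module ℂ V] [FiniteDimensional ℂ V]
      (ρ : (F ≃ₐ[ℚ] F) →* Module.End ℂ V),
      ∃ A : Finset (T → Fin 3), A.card = (chars (MulAction.stabilizer (F ≃ₐ[ℚ] F) J) ρ).ncard ∧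
        ((∀ W : Submodule ℂ V, (∀ σ, ∀ v ∈ W, ρ σ v ∈ W) → W = ⊥ ∨ W = ⊤) → A.card ≤ 2) ∧
        ∀ D : ℕ, Cls D → (∀ t ∈ T, ¬ t ∣ D) → GA T A D →
          (∀ f : V →ₗ[ℂ] ℂ ⊗[ℤ] ((Ec ((D : ℕ) : ℚ)).baseChange F).toAffine.Point,
            (∀ σ v, f (ρ σ v) = act (Ec ((D : ℕ) : ℚ)) σ (f v)) → f = 0) ∧
          ∃ L : ℂ → ℂ, Differentiable ℂ L ∧ L 1 ≠ 0 ∧
            ∀ σ : ℕ → (F ≃ₐ[ℚ] F),
              (∀ p : ℕ, p.Prime → ¬ p ∣ 3 * D * ∏ q ∈ T, q → ∃ u, IsFrobQ (σ p) p u) →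
              ∀ s : ℂ, 3 / 2 < s.re →
                HasProd (fun p : {p : Nat.Primes // ¬ (p : ℕ) ∣ 3 * D * ∏ q ∈ T, q} =>
                  LFac ρ (σ p.1) (ap (WD (D : ℤ)) (p.1 : ℕ)) (p.1 : ℕ) s) (L s) := by
  classical
  obtain ⟨K, _, _, _, j, hK2, hjJ⟩ := sub_field hJ2
  set pr : {p // p ∈ T} → ℕ := fun i => i.1 with hpr
  have hprime : ∀ i, (pr i).Prime := fun i => (hT i.1 i.2).1
  have hinj : Function.Injective pr := fun a b h => Subtype.ext h
  have h31 : ∀ i, pr i % 3 = 1 := fun i => by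
    have : i.1 % 9 = 1 := (hT i.1 i.2).2
    show i.1 % 3 = 1
    omega
  have hDN : ∀ (D : ℕ) (ε : {p // p ∈ T} → Fin 3), tw T D ε = DN D pr ε := fun D ε => rfl
  have hgen2 : ∀ L : Subfield F, algebraMap K F ((j w : 𝓞 K) : K) ∈ L →
      (∀ i : {p // p ∈ T}, r i.1 ∈ L) → L = ⊤ := by
    intro L h1 h2
    refine hgen L ?_ fun p hp => h2 ⟨p, hp⟩
    rcases hjJ with h | h
    · rw [← h]; exact h1
    · have h4 : J = (algebraMap K F ((j w : 𝓞 K) : K)) ^ 2 := by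
        rw [h]
        linear_combination (-J) * J3 hJ2
      rw [h4]
      exact pow_mem h1 2
  have hx : ∀ i : {p // p ∈ T}, r i.1 ^ 3 = ((pr i : ℕ) : F) := fun i => hr i.1 i.2
  have hJ'2 : (algebraMap K F ((j w : 𝓞 K) : K)) ^ 2 + algebraMap K F ((j w : 𝓞 K) : K) + 1 =
      0 := by
    rcases hjJ with h | h
    · rw [h, hJ2]
    · rw [h]
      linear_combination (J ^ 2 - J + 1) * hJ2
  have hgal : IsGalois ℚ F := galQ hJ'2 (fun i : {p // p ∈ T} => ((pr i : ℕ) : ℚ))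
    (fun i => r i.1) (fun i => by rw [hx, map_natCast]) hgen2
  set I : K := ((j w : 𝓞 K) : K) with hI
  have hI2 : I ^ 2 + I + 1 = 0 := by
    have h1 : (w : Ei) ^ 2 + w + 1 = 0 := by decide
    have h2 := congrArg (fun t : Ei => ((j t : 𝓞 K) : K)) h1
    simp only [map_add, map_pow, map_one, map_zero] at h2
    exact h2
  have hxK : ∀ i : {p // p ∈ T}, r i.1 ^ 3 =
      algebraMap K F ((((pr i : ℕ) : 𝓞 K)) : K) := fun i => by
    rw [hx]
    have h1 : (((pr i : ℕ) : 𝓞 K) : K) = ((pr i : ℕ) : K) :=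
      map_natCast (algebraMap (𝓞 K) K) _
    rw [h1, map_natCast]
  have hdeg : Module.finrank K F = 3 ^ T.card := by
    have h1 := deg3g I hI2 (fun i : {p // p ∈ T} => ((pr i : ℕ) : 𝓞 K))
      (fun i => by exact_mod_cast (hprime i).ne_zero) (indQ j hprime hinj) (fun i => r i.1)
      hxK (fun L h1 h2 => hgen2 L (h1 _) h2)
    rw [h1, Fintype.card_coe]
  have hstab : ∀ σ : F ≃ₐ[ℚ] F, σ ∈ MulAction.stabilizer (F ≃ₐ[ℚ] F) J ↔
      σ (algebraMap K F I) = algebraMap K F I := by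
    intro σ
    rw [MulAction.mem_stabilizer_iff, AlgEquiv.smul_def]
    rcases hjJ with h | h
    · rw [h]
    · rw [h, map_pow]
      constructor
      · intro h1
        rw [h1]
      · intro h1
        have h3 := J3 hJ2
        have h4 : (σ J) ^ 3 = 1 := by rw [← map_pow, h3, map_one]
        calc σ J = (σ J ^ 2) ^ 2 := by linear_combination (-(σ J)) * h4
          _ = (J ^ 2) ^ 2 := by rw [h1]
          _ = J := by linear_combination J * h3
  obtain ⟨Φ, hΦ⟩ := galPhiG I hI2 (fun i : {p // p ∈ T} => ((pr i : ℕ) : 𝓞 K))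
    (fun i => by exact_mod_cast (hprime i).ne_zero) (indQ j hprime hinj) (fun i => r i.1)
    hxK (fun S h1 h2 => hgen2 S (h1 _) h2)
  have hlq0 : ∀ i, ((pr i : ℕ) : ℚ) ≠ 0 := fun i => by exact_mod_cast (hprime i).ne_zero
  have hxq : ∀ i : {p // p ∈ T}, r i.1 ^ 3 = algebraMap ℚ F ((pr i : ℕ) : ℚ) := fun i => by
    rw [hx, map_natCast]
  refine ⟨?_, hgal, fun p hp => exists_frobQ hp, fun D hD hTD hG => ?_, fun V _ _ _ ρ => ?_⟩
  · rw [← Module.finrank_mul_finrank ℚ K F, hK2, hdeg]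
  · have h1 : Finite (Ec ((D : ℕ) : F)).toAffine.Point :=
      pts_Q j hprime h31 (fun ε => by
        have hc := tw_cls hT hD hTD ε
        rw [hDN] at hc
        exact ⟨hc, ker_of_ns hc (hG ε (Finset.mem_univ _))⟩) (fun i => r i.1) hx hgen2
    have hcur : (Ec ((D : ℕ) : ℚ)).baseChange F = Ec ((D : ℕ) : F) := by
      unfold Ec WeierstrassCurve.baseChange WeierstrassCurve.map
      simp
    rw [hcur]
    exact h1
  · obtain ⟨κ, hκ, b, χ, m, hE⟩ := eig_exists hI2 hxq hlq0 hgen2 Φ ρ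
    have hc := card_chars j hE (MulAction.stabilizer (F ≃ₐ[ℚ] F) J) hstab
    refine ⟨Finset.univ.image m, ?_, fun hirr => ?_, fun D hD hTD hG => ?_⟩
    · rw [← hc]
    · refine Finset.card_image_le.trans ?_
      rw [Finset.card_univ]
      refine irr_two hI2 hxq hlq0 hgen2 (fun σ hσ => ?_) hE hirr
      obtain ⟨τ, hτ⟩ := lift_K j hσ
      exact ⟨τ, AlgEquiv.ext hτ⟩
    · have hall : ∀ k, Cls (DN D pr (m k)) ∧ NoSplit (DN D pr (m k)) := by
        intro k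
        have hc := tw_cls hT hD hTD (m k)
        rw [hDN] at hc
        exact ⟨hc, hG (m k) (Finset.mem_image_of_mem _ (Finset.mem_univ k))⟩
      have hM0 : 3 * D * ∏ q ∈ T, q ≠ 0 := mul_ne_zero (mul_ne_zero (by norm_num) hD.1.1)
        (Finset.prod_ne_zero_iff.2 fun q hq => (hT q hq).1.ne_zero)
      refine ⟨fun f hf => hom0 j hprime hD.1.1 hx hgen2 hΦ hE hall f hf, ?_⟩
      exact repL2 j hprime hx hgen2 hgal hM0 (by rw [mul_assoc]; exact dvd_mul_right _ _)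
        (Dvd.dvd.mul_right (dvd_mul_left _ _) _)
        (fun i => Dvd.dvd.mul_left (Finset.dvd_prod_of_mem (fun q => q) i.2) _) hΦ hE hall

end Pool.Agent.X253.MN
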