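import Mathlib

/-!
# Isotypic parts of `ℂ ⊗ A` for a group with an action of the third roots of unity
-/

set_option autoImplicit false
set_option linter.unusedSectionVars false

namespace Pool.Agent.X253.MN

open scoped TensorProduct

/-- an endomorphism with torsion values vanishes after tensoring -/
theorem bc_zero {A : Type} [AddCommGroup A] (N : A →+ A)
    (h : ∀ P, ∃ n : ℕ, n ≠ 0 ∧ n • N P = 0) (x : ℂ ⊗[ℤ] A) :
    (N.toIntLinearMap).baseChange ℂ x = 0 := by
  induction x using TensorProduct.induction_on with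
  | zero => rw [map_zero]
  | tmul q P =>
    obtain ⟨n, hn, h0⟩ := h P
    rw [LinearMap.baseChange_tmul]
    have hn' : (n : ℂ) ≠ 0 := by exact_mod_cast hn
    have h3 : q = (n : ℤ) • (q / (n : ℂ)) := by
      rw [zsmul_eq_mul]
      push_cast
      field_simp
    have h4 : (n : ℤ) • N.toIntLinearMap P = 0 := by
      rw [natCast_zsmul]
      exact h0
    rw [h3, TensorProduct.smul_tmul, h4, TensorProduct.tmul_zero]
  | add x y hx hy => rw [map_add, hx, hy, add_zero]

lemma pow_mul_one {z : ℂ} (hz : z ^ 3 = 1) (a : ZMod 3) : z ^ (-a).val * z ^ a.val = 1 := by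
  rw [← pow_add]
  have h : ∀ a : ZMod 3, (-a).val + a.val = 0 ∨ (-a).val + a.val = 3 := by decide
  rcases h a with h | h
  · rw [h, pow_zero]
  · rw [h, hz]

/-- the iterates -/
def itr {A : Type} [AddCommGroup A] (Z : A →+ A) : ℕ → (A →+ A)
  | 0 => AddMonoidHom.id A
  | n + 1 => (itr Z n).comp Z

lemma itr_apply {A : Type} [AddCommGroup A] (Z : A →+ A) (n : ℕ) (P : A) :
    itr Z n P = (Z^[n]) P := by
  induction n generalizing P with
  | zero => rfl
  | succ n ih =>
    show itr Z n (Z P) = (Z^[n]) (Z P)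
    exact ih _

section

variable {A H : Type} [AddCommGroup A] [Fintype H]

/-- **The isotypic part is zero.** -/
theorem abs0 [Nonempty H] (S : H → A →+ A) (Z : A →+ A)
    (hZ : ∀ P, P + Z P + Z (Z P) = 0) (hZS : ∀ h P, Z (S h P) = S h (Z P))
    (a : H → ZMod 3)
    (h1 : ∀ P, ∃ n : ℕ, n ≠ 0 ∧ n • (∑ h, (Z^[(a h).val]) (S h P)) = 0)
    (h2 : ∀ P, ∃ n : ℕ, n ≠ 0 ∧ n • (∑ h, (Z^[(-a h).val]) (S h P)) = 0)
    {ζ : ℂ} (hζ : ζ ^ 2 + ζ + 1 = 0) (x : ℂ ⊗[ℤ] A)
    (hx : ∀ h, (S h).toIntLinearMap.baseChange ℂ x = (ζ ^ (a h).val) • x) : x = 0 := by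
  have hζ3 : ζ ^ 3 = 1 := by linear_combination (ζ - 1) * hζ
  obtain ⟨z, hz⟩ : ∃ z : Module.End ℂ (ℂ ⊗[ℤ] A), z = Z.toIntLinearMap.baseChange ℂ := ⟨_, rfl⟩
  have hzz : ∀ y, z (z y) = - z y - y := by
    intro y
    rw [hz]
    induction y using TensorProduct.induction_on with
    | zero => simp
    | tmul q P =>
      rw [LinearMap.baseChange_tmul, LinearMap.baseChange_tmul, ← TensorProduct.tmul_neg,
        ← TensorProduct.tmul_sub]
      congr 1
      show Z (Z P) = - Z P - P
      have := hZ P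
      rw [eq_sub_iff_add_eq, eq_neg_iff_add_eq_zero, ← this]
      abel
    | add y y' h h' =>
      rw [map_add, map_add, h, h']
      abel
  have hzs : ∀ h y, z ((S h).toIntLinearMap.baseChange ℂ y) =
      (S h).toIntLinearMap.baseChange ℂ (z y) := by
    intro h y
    rw [hz]
    induction y using TensorProduct.induction_on with
    | zero => simp
    | tmul q P =>
      rw [LinearMap.baseChange_tmul, LinearMap.baseChange_tmul, LinearMap.baseChange_tmul,
        LinearMap.baseChange_tmul]
      congr 1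
      exact hZS h P
    | add y y' h h' =>
      rw [map_add, map_add, h, h', map_add, map_add]
  -- the operators
  have hop : ∀ b : H → ZMod 3, (∀ P, ∃ n : ℕ, n ≠ 0 ∧ n • (∑ h, (Z^[(b h).val]) (S h P)) = 0) →
      ∀ y, ∑ h, (z^[(b h).val]) ((S h).toIntLinearMap.baseChange ℂ y) = 0 := by
    intro b hb y
    obtain ⟨N, hN⟩ : ∃ N : A →+ A, N = ∑ h, (itr Z (b h).val).comp (S h) := ⟨_, rfl⟩
    have hN' : ∀ P, N P = ∑ h, (Z^[(b h).val]) (S h P) := by
      intro P
      rw [hN, AddMonoidHom.finsetSum_apply]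
      refine Finset.sum_congr rfl fun h _ => ?_
      rw [AddMonoidHom.comp_apply, itr_apply]
    have h5 := bc_zero N (fun P => by rw [hN' P]; exact hb P) y
    rw [← h5]
    clear h5
    induction y using TensorProduct.induction_on with
    | zero =>
      rw [map_zero]
      refine Finset.sum_eq_zero fun h _ => ?_
      rw [map_zero]
      exact Function.iterate_fixed (map_zero z) _
    | tmul q P =>
      rw [LinearMap.baseChange_tmul]
      have h6 : N.toIntLinearMap P = ∑ h, (Z^[(b h).val]) (S h P) := hN' P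
      rw [h6, TensorProduct.tmul_sum]
      refine Finset.sum_congr rfl fun h _ => ?_
      rw [LinearMap.baseChange_tmul]
      have h7 : ∀ (n : ℕ) (Q : A), (z^[n]) (q ⊗ₜ[ℤ] Q) = q ⊗ₜ[ℤ] (Z^[n]) Q := by
        intro n
        induction n with
        | zero => exact fun Q => rfl
        | succ n ih =>
          intro Q
          rw [Function.iterate_succ_apply, Function.iterate_succ_apply, hz,
            LinearMap.baseChange_tmul, ← hz]
          exact ih _
      exact h7 _ _
    | add y y' h h' =>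
      rw [map_add, ← h, ← h', ← Finset.sum_add_distrib]
      refine Finset.sum_congr rfl fun g _ => ?_
      rw [map_add]
      have h8 : ∀ (n : ℕ) (Q Q' : ℂ ⊗[ℤ] A), (z^[n]) (Q + Q') = (z^[n]) Q + (z^[n]) Q' := by
        intro n
        induction n with
        | zero => exact fun Q Q' => rfl
        | succ n ih =>
          intro Q Q'
          rw [Function.iterate_succ_apply, Function.iterate_succ_apply,
            Function.iterate_succ_apply, map_add]
          exact ih _ _
      exact h8 _ _ _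
  have hcard : (Fintype.card H : ℂ) ≠ 0 := by
    exact_mod_cast Fintype.card_ne_zero
  -- eigenvectors of `z`
  have hev : ∀ (μ : ℂ) (y : ℂ ⊗[ℤ] A), z y = μ • y → ∀ n : ℕ, (z^[n]) y = μ ^ n • y := by
    intro μ y hy n
    induction n with
    | zero => rw [pow_zero, one_smul]; rfl
    | succ n ih =>
      rw [Function.iterate_succ_apply', ih, map_smul, hy, smul_smul, pow_succ]
  -- the first part
  obtain ⟨y, hy⟩ : ∃ y, y = z x - (ζ ^ 2) • x := ⟨_, rfl⟩
  have hy1 : z y = ζ • y := by
    rw [hy, map_sub, map_smul, hzz, smul_sub, smul_smul, ← pow_succ', hζ3, one_smul]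
    have h9 : (-1 - ζ ^ 2 : ℂ) = ζ := by linear_combination (-1 : ℂ) * hζ
    have h10 : (-1 - ζ ^ 2 : ℂ) • z x = ζ • z x := by rw [h9]
    rw [sub_smul, neg_smul, one_smul] at h10
    rw [← h10]
    abel
  have hy2 : ∀ h, (S h).toIntLinearMap.baseChange ℂ y = (ζ ^ (a h).val) • y := by
    intro h
    rw [hy, map_sub, map_smul, ← hzs, hx, map_smul, smul_sub, smul_smul, smul_smul, mul_comm]
  have hy0 : y = 0 := by
    have h11 := hop (fun h => -a h) h2 y
    have h12 : ∀ h, (z^[(-a h).val]) ((S h).toIntLinearMap.baseChange ℂ y) = y := by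
      intro h
      have h13 : z ((ζ ^ (a h).val) • y) = ζ • ((ζ ^ (a h).val) • y) := by
        rw [map_smul, hy1, smul_smul, smul_smul, mul_comm]
      rw [hy2, hev ζ _ h13, smul_smul, pow_mul_one hζ3, one_smul]
    rw [Finset.sum_congr rfl fun h _ => h12 h, Finset.sum_const, Finset.card_univ,
      ← Nat.cast_smul_eq_nsmul ℂ] at h11
    exact (smul_eq_zero.1 h11).resolve_left hcard
  have hx1 : z x = (ζ ^ 2) • x := by
    rw [hy] at hy0
    exact sub_eq_zero.1 hy0
  have h11 := hop a h1 x
  have h12 : ∀ h, (z^[(a h).val]) ((S h).toIntLinearMap.baseChange ℂ x) = x := by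
    intro h
    have h13 : z ((ζ ^ (a h).val) • x) = (ζ ^ 2) • ((ζ ^ (a h).val) • x) := by
      rw [map_smul, hx1, smul_smul, smul_smul, mul_comm]
    rw [hx, hev _ _ h13, smul_smul, ← pow_mul, ← pow_add,
      show 2 * (a h).val + (a h).val = 3 * (a h).val by ring, pow_mul, hζ3, one_pow, one_smul]
  rw [Finset.sum_congr rfl fun h _ => h12 h, Finset.sum_const, Finset.card_univ,
    ← Nat.cast_smul_eq_nsmul ℂ] at h11
  exact (smul_eq_zero.1 h11).resolve_left hcard

end

end Pool.Agent.X253.MN
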