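import Pool.Agent.X253.C3.Rep8
import Pool.Agent.X253.MN.A1

/-!
# The twisted projections of the points over `K(∛l : l ∈ T)`
-/

set_option autoImplicit false
set_option linter.unusedSectionVars false

open NumberField WeierstrassCurve

namespace Pool.Agent.X253.MN

open Pool.Agent.X253.C3

section main

variable {K F : Type} [Field K] [NumberField K] [Field F] [NumberField F] [Algebra K F]

/-- **The twisted projections are of finite order** -/
theorem pr_tors (I : K) (hI : I ^ 2 + I + 1 = 0) {T : Type} [Fintype T] (l : T → K)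
    (hl : ∀ i, l i ≠ 0)
    (x : T → F) (hx : ∀ i, x i ^ 3 = algebraMap K F (l i))
    (hgen : ∀ S : Subfield F, (∀ k : K, algebraMap K F k ∈ S) → (∀ i, x i ∈ S) → S = ⊤)
    (a : K) (ha : a ≠ 0) (ε : T → Fin 3)
    (hyp : Finite (Ec (a * ∏ i, l i ^ (ε i : ℕ))).toAffine.Point)
    [Fintype (F ≃ₐ[K] F)] [DecidableEq F]
    (W : (F ≃ₐ[K] F) → F) (hW : ∀ σ, W σ = ∏ i, (σ (x i) / x i) ^ (ε i : ℕ))
    (hW3 : ∀ σ, W σ ^ 3 = 1)
    (hd : ∀ σ : F ≃ₐ[K] F, ((σ : F ≃+* F) : F →+* F) (algebraMap K F a) = algebraMap K F a)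
    (P : (Ec (algebraMap K F a)).toAffine.Point) :
    ∃ n : ℕ, n ≠ 0 ∧
      n • (∑ σ : F ≃ₐ[K] F, B ((σ : F ≃+* F) : F →+* F) (W σ) (hd σ) (hW3 σ) P) = 0 := by
  have hgal : IsGalois K F := galois3 I hI l x hx hgen
  have hfd : FiniteDimensional K F := Pool.Agent.Y715.CS.finKF
  have hx0 : ∀ i, x i ≠ 0 := by
    intro i h0
    have h1 := hx i
    rw [h0, zero_pow (by norm_num)] at h1
    exact hl i ((map_eq_zero _).1 h1.symm)
  obtain ⟨u, hu⟩ : ∃ u : F, u = ∏ i, x i ^ (ε i : ℕ) := ⟨_, rfl⟩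
  have hune : u ≠ 0 := by
    rw [hu]
    exact Finset.prod_ne_zero_iff.2 fun i _ => pow_ne_zero _ (hx0 i)
  have hu3 : u ^ 3 = algebraMap K F (∏ i, l i ^ (ε i : ℕ)) := by
    rw [hu, ← Finset.prod_pow, map_prod]
    refine Finset.prod_congr rfl fun i _ => ?_
    rw [map_pow, ← hx i, ← pow_mul, ← pow_mul, mul_comm]
  obtain ⟨J, hJ⟩ : ∃ J : F, J = algebraMap K F I := ⟨_, rfl⟩
  have hJ2 : J ^ 2 + J + 1 = 0 := by
    rw [hJ, ← map_pow, ← map_one (algebraMap K F), ← map_add, ← map_add, hI, map_zero]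
  have hcube : ∀ z : F, z ^ 3 = 1 → ∃ c : K, z = algebraMap K F c := by
    intro z hz
    have h5 : (z - 1) * ((z - J) * (z - J ^ 2)) = 0 := by
      linear_combination hz + (- z ^ 2 + z + J * z - z * 1 + (1 - J)) * hJ2
    rcases mul_eq_zero.1 h5 with h6 | h6
    · exact ⟨1, by rw [map_one]; linear_combination h6⟩
    · rcases mul_eq_zero.1 h6 with h7 | h7
      · exact ⟨I, by rw [← hJ]; linear_combination h7⟩
      · exact ⟨I ^ 2, by rw [map_pow, ← hJ]; linear_combination h7⟩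
  have hWu : ∀ σ : F ≃ₐ[K] F, σ u = W σ * u := by
    intro σ
    rw [hu, hW, map_prod, ← Finset.prod_mul_distrib]
    refine Finset.prod_congr rfl fun i _ => ?_
    rw [map_pow, ← mul_pow, div_mul_cancel₀ _ (hx0 i)]
  have hWfix : ∀ (σ τ : F ≃ₐ[K] F), τ (W σ) = W σ := by
    intro σ τ
    obtain ⟨c, hc⟩ := hcube _ (hW3 σ)
    rw [hc, AlgEquiv.commutes]
  have hWmul : ∀ (τ σ : F ≃ₐ[K] F), W σ * W τ = W (τ * σ) := by
    intro τ σ
    apply mul_right_cancel₀ hune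
    rw [← hWu, AlgEquiv.mul_apply, hWu σ, map_mul, hWfix, hWu τ]
    ring
  -- the projection
  obtain ⟨Pr, hPr⟩ : ∃ Pr : (Ec (algebraMap K F a)).toAffine.Point →+
      (Ec (algebraMap K F a)).toAffine.Point, Pr =
      ∑ σ : F ≃ₐ[K] F, B ((σ : F ≃+* F) : F →+* F) (W σ) (hd σ) (hW3 σ) :=
    ⟨_, rfl⟩
  have hPr' : ∀ P, Pr P =
      ∑ σ : F ≃ₐ[K] F, B ((σ : F ≃+* F) : F →+* F) (W σ) (hd σ) (hW3 σ) P := by
    intro P
    rw [hPr, AddMonoidHom.finsetSum_apply]
  have hfix : ∀ P (τ : F ≃ₐ[K] F),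
      B ((τ : F ≃+* F) : F →+* F) (W τ) (hd τ) (hW3 τ) (Pr P) = Pr P := by
    intro P τ
    rw [hPr', map_sum]
    have h1 : ∀ σ : F ≃ₐ[K] F, B ((τ : F ≃+* F) : F →+* F) (W τ) (hd τ) (hW3 τ)
        (B ((σ : F ≃+* F) : F →+* F) (W σ) (hd σ) (hW3 σ) P) =
        B (((τ * σ : F ≃ₐ[K] F) : F ≃+* F) : F →+* F) (W (τ * σ)) (hd (τ * σ))
          (hW3 (τ * σ)) P := by
      intro σ
      refine B_comp _ _ _ _ _ _ _ _ _ _ _ _ (fun _ => rfl) ?_ P
      rw [← hWmul]
      exact congrArg (· * W τ) (hWfix σ τ)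
    rw [Finset.sum_congr rfl fun σ _ => h1 σ]
    exact Equiv.sum_comp (Equiv.mulLeft τ) (fun σ : F ≃ₐ[K] F =>
      B ((σ : F ≃+* F) : F →+* F) (W σ) (hd σ) (hW3 σ) P)
  -- the fixed points are finite in number
  have hfin : {Q : (Ec (algebraMap K F a)).toAffine.Point | ∀ τ : F ≃ₐ[K] F,
      B ((τ : F ≃+* F) : F →+* F) (W τ) (hd τ) (hW3 τ) Q = Q}.Finite := by
    have hf1 := hyp
    let f : (Ec (a * ∏ i, l i ^ (ε i : ℕ))).toAffine.Point → Option (F × F) := fun P => match P with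
      | 0 => none
      | .some X Y _ => some (algebraMap K F X / u ^ 2, algebraMap K F Y / u ^ 3)
    have hf : (Set.range f).Finite := Set.finite_range f
    refine (hf.preimage co_inj.injOn).subset ?_
    rintro (_ | ⟨X, Y, hn⟩) hP
    · exact ⟨0, rfl⟩
    · have hfix : ∀ τ : F ≃ₐ[K] F, τ (X * u ^ 2) = X * u ^ 2 ∧
          τ (Y * u ^ 3) = Y * u ^ 3 := by
        intro τ
        have h1 := hP τ
        obtain ⟨h2, e2⟩ := B_some ((τ : F ≃+* F) : F →+* F) (W τ) (hd τ) (hW3 τ) X Y hn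
        have h1' : B ((τ : F ≃+* F) : F →+* F) (W τ) (hd τ) (hW3 τ)
          (Affine.Point.some X Y hn) = Affine.Point.some X Y hn := h1
        rw [e2, Affine.Point.some.injEq] at h1'
        obtain ⟨h3, h4⟩ := h1'
        have h3' : τ X * W τ ^ 2 = X := h3
        have h4' : τ Y * W τ ^ 3 = Y := h4
        rw [map_mul, map_mul, map_pow, map_pow, hWu]
        constructor
        · linear_combination (u ^ 2) * h3'
        · linear_combination (u ^ 3) * h4'
      obtain ⟨U, hU⟩ := (IsGalois.mem_range_algebraMap_iff_fixed (X * u ^ 2)).2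
        fun τ => (hfix τ).1
      obtain ⟨V, hV⟩ := (IsGalois.mem_range_algebraMap_iff_fixed (Y * u ^ 3)).2
        fun τ => (hfix τ).2
      have heq : Y ^ 2 + algebraMap K F a * Y = X ^ 3 := (Ec_eqn _ X Y).1 hn.1
      have hd0 : a * ∏ i, l i ^ (ε i : ℕ) ≠ 0 :=
        mul_ne_zero ha (Finset.prod_ne_zero_iff.2 fun i _ => pow_ne_zero _ (hl i))
      have hns : (Ec (a * ∏ i, l i ^ (ε i : ℕ))).toAffine.Nonsingular U V := by
        rw [← Affine.equation_iff_nonsingular_of_Δ_ne_zero]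
        · rw [Ec_eqn]
          apply (algebraMap K F).injective
          rw [map_add, map_pow, map_pow, map_mul, map_mul, ← hu3, hU, hV]
          linear_combination u ^ 6 * heq
        · have : (Ec (a * ∏ i, l i ^ (ε i : ℕ))).toAffine.Δ =
              -27 * (a * ∏ i, l i ^ (ε i : ℕ)) ^ 4 := by
            simp only [Ec, WeierstrassCurve.Δ, WeierstrassCurve.b₂, WeierstrassCurve.b₄,
              WeierstrassCurve.b₆, WeierstrassCurve.b₈]
            ring
          rw [this]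
          exact mul_ne_zero (by norm_num) (pow_ne_zero 4 hd0)
      refine ⟨.some U V hns, ?_⟩
      show some (algebraMap K F U / u ^ 2, algebraMap K F V / u ^ 3) = some (X, Y)
      rw [hU, hV, mul_div_cancel_right₀ _ (pow_ne_zero 2 hune),
        mul_div_cancel_right₀ _ (pow_ne_zero 3 hune)]
  have hrange : Finite Pr.range := by
    refine Set.Finite.to_subtype (hfin.subset ?_)
    rintro _ ⟨P, rfl⟩ τ
    exact hfix P τ
  have h9 : IsOfFinAddOrder (⟨Pr P, P, rfl⟩ : Pr.range) := isOfFinAddOrder_of_finite _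
  obtain ⟨n, hn, h0⟩ := isOfFinAddOrder_iff_nsmul_eq_zero.1 h9
  refine ⟨n, hn.ne', ?_⟩
  rw [← hPr']
  have h10 := congrArg (Subtype.val) h0
  exact h10

/-- the action of the root of unity on the points -/
theorem Z_zero [DecidableEq F] {d : F} (hd : d ≠ 0) {J : F} (hJ2 : J ^ 2 + J + 1 = 0)
    (hJ3 : J ^ 3 = 1) (P : (Ec d).toAffine.Point) :
    P + B (RingHom.id F) J rfl hJ3 P + B (RingHom.id F) J rfl hJ3 (B (RingHom.id F) J rfl hJ3 P) =
      0 := by
  have hJ1 : J ^ 2 ≠ 1 := by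
    intro h
    have h1 : J = -2 := by linear_combination hJ2 - h
    rw [h1] at hJ2
    norm_num at hJ2
  have hJ4 : (J ^ 2) ^ 2 + J ^ 2 + 1 = 0 := by linear_combination (J ^ 2 - J + 1) * hJ2
  match P with
  | 0 => rw [map_zero, map_zero, add_zero, add_zero]
  | .some X Y h =>
    obtain ⟨g1, e1⟩ := B_some (RingHom.id F) J rfl hJ3 X Y h
    obtain ⟨g2, e2⟩ := B_some (RingHom.id F) J rfl hJ3 _ _ g1
    rw [e1, e2]
    refine sum3' (Ec d) rfl rfl rfl rfl hd hJ4 hJ1 _ _ _ ?_ ?_ ?_ ?_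
    · show X * J ^ 2 = J ^ 2 * X
      ring
    · show Y * J ^ 3 = Y
      rw [hJ3, mul_one]
    · show X * J ^ 2 * J ^ 2 = (J ^ 2) ^ 2 * X
      ring
    · show Y * J ^ 3 * J ^ 3 = Y
      rw [hJ3, mul_one, mul_one]

/-- the iterates -/
theorem Z_iter [DecidableEq F] {d : F} {J : F} (hJ3 : J ^ 3 = 1) (φ : F →+* F) (hφ : φ d = d)
    (n : ℕ) (w : F) (hw : w ^ 3 = 1) (hwn : w = J ^ n) (P : (Ec d).toAffine.Point) :
    ((B (RingHom.id F) J (d := d) rfl hJ3)^[n]) (B φ 1 hφ (one_pow 3) P) = B φ w hφ hw P := by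
  induction n generalizing w with
  | zero =>
    rw [pow_zero] at hwn
    subst hwn
    rfl
  | succ n ih =>
    rw [Function.iterate_succ_apply', ih (J ^ n) (by rw [← pow_mul, mul_comm, pow_mul, hJ3,
      one_pow]) rfl]
    refine B_comp _ _ _ _ _ _ _ _ _ _ _ _ (fun _ => rfl) ?_ P
    rw [hwn, pow_succ]
    rfl

theorem Z_comm [DecidableEq F] {d : F} {J : F} (hJ3 : J ^ 3 = 1) (φ : F →+* F) (hφ : φ d = d)
    (hφJ : φ J = J) (P : (Ec d).toAffine.Point) :
    B (RingHom.id F) J rfl hJ3 (B φ 1 hφ (one_pow 3) P) =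
      B φ 1 hφ (one_pow 3) (B (RingHom.id F) J rfl hJ3 P) := by
  rw [B_comp (RingHom.id F) φ φ J 1 J rfl hJ3 hφ (one_pow 3) hφ hJ3 (fun _ => rfl) (by
      rw [map_one, one_mul]) P,
    B_comp φ (RingHom.id F) φ 1 J J hφ (one_pow 3) rfl hJ3 hφ hJ3 (fun _ => rfl) (by
      rw [hφJ, mul_one]) P]

end main

end Pool.Agent.X253.MN
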