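import Pool.Agent.X253.MN.A2
import Pool.Agent.X253.C3.Rep9

/-!
# The characters of `Gal(F / ℚ(ω))` in a representation of `Gal(F / ℚ)`
-/

set_option autoImplicit false
set_option linter.unusedVariables false
set_option linter.unusedSectionVars false

namespace Pool.Agent.X253.MN

open NumberField IsDedekindDomain WeierstrassCurve
open Pool.Agent.Y692.QS (Ei w nr toC toC_inj ns mul_star toC_normSq)
open Pool.Agent.Y715.T.Rec (cs nn)
open Pool.Agent.Y715.T.RecG (Pq cs_spec cs_uniq)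
open Pool.Agent.Y703.CT (WD Cls NoSplit IsL)
open Pool.Agent.Y703.CT
open Pool.Agent.W97.MT (ap)
open Pool.Agent.Y696.CTK
open Pool.Agent.Y696.CT
open Pool.Agent.X253.C3
open scoped Classical

/-- the characters of a subgroup that occur in a representation -/
def chars {G V : Type} [Group G] [AddCommGroup V] [Module ℂ V] (H : Subgroup G)
    (ρ : G →* Module.End ℂ V) : Set (H → ℂ) :=
  {χ | ∃ v : V, v ≠ 0 ∧ ∀ σ : H, ρ σ v = χ σ • v}

section

variable {K F : Type} [Field K] [NumberField K] [Field F] [NumberField F] [Algebra K F]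
  {V : Type} [AddCommGroup V] [Module ℂ V]

/-- a basis of eigenvectors -/
structure Eig {T : Type} [Fintype T] (Φ : Additive (F ≃ₐ[K] F) ≃+ (T → ZMod 3))
    (ρ : (F ≃ₐ[ℚ] F) →* Module.End ℂ V) {κ : Type} [Fintype κ] (b : Module.Basis κ ℂ V)
    (χ : κ → ((F ≃ₐ[K] F) →* ℂˣ)) (m : κ → T → Fin 3) : Prop where
  eig : ∀ k (τ : F ≃ₐ[K] F), ρ (τ.restrictScalars ℚ) (b k) = ((χ k τ : ℂˣ) : ℂ) • b k
  val : ∀ k (τ : F ≃ₐ[K] F), ((χ k τ : ℂˣ) : ℂ) =
      ∏ i, ((toC w) ^ (Φ (Additive.ofMul τ) i).val) ^ ((m k i : Fin 3) : ℕ)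

theorem eig_exists [FiniteDimensional ℂ V] {I : K} (hI2 : I ^ 2 + I + 1 = 0)
    {T : Type} [Fintype T] {l : T → ℚ} {x : T → F}
    (hx : ∀ i, x i ^ 3 = algebraMap ℚ F (l i)) (hl : ∀ i, l i ≠ 0)
    (hgen : ∀ S : Subfield F, algebraMap K F I ∈ S → (∀ i, x i ∈ S) → S = ⊤)
    (Φ : Additive (F ≃ₐ[K] F) ≃+ (T → ZMod 3))
    (ρ : (F ≃ₐ[ℚ] F) →* Module.End ℂ V) :
    ∃ (κ : Type) (_ : Fintype κ) (b : Module.Basis κ ℂ V) (χ : κ → ((F ≃ₐ[K] F) →* ℂˣ))
      (m : κ → T → Fin 3), Eig Φ ρ b χ m := by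
  have hJ2 : (algebraMap K F I) ^ 2 + algebraMap K F I + 1 = 0 := by
    rw [← map_pow, ← map_one (algebraMap K F), ← map_add, ← map_add, hI2, map_zero]
  set J : F := algebraMap K F I with hJ
  have hfix : ∀ τ : F ≃ₐ[K] F, (τ.restrictScalars ℚ) J = J := fun τ => by
    show τ (algebraMap K F I) = _
    rw [AlgEquiv.commutes]
  obtain ⟨κ, hκ, b, χ₀, hb⟩ := joint_basis (fun τ : F ≃ₐ[K] F => ρ (τ.restrictScalars ℚ))
    (fun τ τ' => by
      show _ * _ = _ * _
      rw [← map_mul, ← map_mul, comm_A hJ2 hx hl hgen (hfix τ) (hfix τ')])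
    (fun τ => by
      show (ρ _) ^ 3 = 1
      rw [← map_pow, cube_A hJ2 hx hl hgen (hfix τ), map_one])
  have hb0 : ∀ k, b k ≠ 0 := fun k => b.ne_zero k
  have hmul : ∀ k (τ τ' : F ≃ₐ[K] F), χ₀ k (τ * τ') = χ₀ k τ * χ₀ k τ' := by
    intro k τ τ'
    have h1 : ρ ((τ * τ').restrictScalars ℚ) (b k) = χ₀ k (τ * τ') • b k := hb k (τ * τ')
    have h2 : (τ * τ').restrictScalars ℚ = τ.restrictScalars ℚ * τ'.restrictScalars ℚ := rfl
    rw [h2, map_mul, Module.End.mul_apply] at h1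
    have h3 : ρ (τ'.restrictScalars ℚ) (b k) = χ₀ k τ' • b k := hb k τ'
    have h4 : ρ (τ.restrictScalars ℚ) (b k) = χ₀ k τ • b k := hb k τ
    rw [h3, map_smul, h4, smul_smul] at h1
    have h5 := smul_left_injective ℂ (hb0 k) h1
    rw [← h5, mul_comm]
  have hone : ∀ k, χ₀ k 1 = 1 := by
    intro k
    have h1 : ρ ((1 : F ≃ₐ[K] F).restrictScalars ℚ) (b k) = χ₀ k 1 • b k := hb k 1
    have h2 : (1 : F ≃ₐ[K] F).restrictScalars ℚ = 1 := rfl
    rw [h2, map_one, Module.End.one_apply] at h1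
    have h3 : (1 : ℂ) • b k = χ₀ k 1 • b k := by rw [one_smul]; exact h1
    exact (smul_left_injective ℂ (hb0 k) h3).symm
  let χm : κ → ((F ≃ₐ[K] F) →* ℂ) := fun k =>
    { toFun := χ₀ k
      map_one' := hone k
      map_mul' := hmul k }
  let χ : κ → ((F ≃ₐ[K] F) →* ℂˣ) := fun k => (χm k).toHomUnits
  have hχ : ∀ k (τ : F ≃ₐ[K] F),
      ρ (τ.restrictScalars ℚ) (b k) = ((χ k τ : ℂˣ) : ℂ) • b k := fun k τ => hb k τ
  choose m hm using fun k => charPhi Φ (χ k)
  exact ⟨κ, hκ, b, χ, m, hχ, hm⟩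

/-- the eigencharacters are those of the basis -/
theorem eig_char {T : Type} [Fintype T] {Φ : Additive (F ≃ₐ[K] F) ≃+ (T → ZMod 3)}
    {ρ : (F ≃ₐ[ℚ] F) →* Module.End ℂ V} {κ : Type} [Fintype κ] {b : Module.Basis κ ℂ V}
    {χ : κ → ((F ≃ₐ[K] F) →* ℂˣ)} {m : κ → T → Fin 3} (hE : Eig Φ ρ b χ m)
    {v : V} (hv : v ≠ 0) {c : (F ≃ₐ[K] F) → ℂ}
    (h : ∀ τ : F ≃ₐ[K] F, ρ (τ.restrictScalars ℚ) v = c τ • v) :
    ∃ k, ∀ τ, c τ = ((χ k τ : ℂˣ) : ℂ) := by
  have h1 : b.repr v ≠ 0 := fun h0 => hv (by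
    have := congrArg b.repr.symm h0
    simpa using this)
  obtain ⟨k, hk⟩ := Finsupp.ne_iff.1 h1
  rw [Finsupp.zero_apply] at hk
  refine ⟨k, fun τ => ?_⟩
  have h2 : b.repr (ρ (τ.restrictScalars ℚ) v) k = ((χ k τ : ℂˣ) : ℂ) * b.repr v k := by
    conv_lhs => rw [← b.sum_repr v]
    rw [map_sum, map_sum, Finsupp.finsetSum_apply, Finset.sum_eq_single k]
    · rw [map_smul, map_smul, hE.eig, map_smul, Module.Basis.repr_self, Finsupp.smul_apply,
        Finsupp.smul_apply, Finsupp.single_eq_same, smul_eq_mul, smul_eq_mul, mul_one, mul_comm]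
    · intro k' _ hk'
      rw [map_smul, map_smul, hE.eig, map_smul, Module.Basis.repr_self, Finsupp.smul_apply,
        Finsupp.smul_apply, Finsupp.single_apply, if_neg hk', smul_zero, smul_zero]
    · intro h'
      exact absurd (Finset.mem_univ _) h'
  rw [h, map_smul, Finsupp.smul_apply, smul_eq_mul] at h2
  exact mul_right_cancel₀ hk h2

lemma toCw3 : (toC w) ^ 3 = 1 := by linear_combination (toC w - 1) * toCw

lemma toCw1 : toC w ≠ 1 := by
  intro h
  have := toCw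
  rw [h] at this
  norm_num at this

lemma toCw_inj {a b : Fin 3} (h : (toC w) ^ (a : ℕ) = (toC w) ^ (b : ℕ)) : a = b := by
  have h3 := toCw3
  have h1 := toCw1
  generalize toC w = z at h h3 h1
  have h2 : z ^ 2 ≠ 1 := by
    intro h2
    apply h1
    linear_combination h3 - z * h2
  have h4 : z ^ 2 ≠ z := by
    intro h4
    have h5 : z * (z - 1) = 0 := by linear_combination h4
    rcases mul_eq_zero.1 h5 with h6 | h6
    · rw [h6] at h3
      norm_num at h3
    · exact absurd (by linear_combination h6) h1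
  apply Fin.ext
  have ha := a.2
  have hb := b.2
  generalize (a : ℕ) = n at h ha
  generalize (b : ℕ) = n' at h hb
  interval_cases n <;> interval_cases n' <;> first | rfl | (exfalso; rw [pow_zero] at h; first | exact h1 (by rw [pow_one] at h; exact h.symm) | exact h2 h.symm) | (exfalso; rw [pow_one] at h; first | exact h4 h.symm | exact h4 h | exact h1 (by rw [pow_zero] at h; exact h)) | (exfalso; exact h2 (by rw [pow_zero] at h; exact h))

/-- the exponents are determined by the character -/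
theorem m_inj {G T : Type} [Group G] [Fintype T] (Φ : Additive G ≃+ (T → ZMod 3))
    {m m' : T → Fin 3}
    (h : ∀ σ : G, ∏ i, ((toC w) ^ (Φ (Additive.ofMul σ) i).val) ^ ((m i : Fin 3) : ℕ) =
      ∏ i, ((toC w) ^ (Φ (Additive.ofMul σ) i).val) ^ ((m' i : Fin 3) : ℕ)) : m = m' := by
  funext i
  have h1 := h (Φ.symm (Pi.single i 1)).toMul
  have h2 : Φ (Additive.ofMul (Φ.symm (Pi.single i (1 : ZMod 3))).toMul) = Pi.single i 1 := by
    rw [ofMul_toMul, AddEquiv.apply_symm_apply]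
  rw [h2] at h1
  have h3 : ∀ m : T → Fin 3, ∏ k, ((toC w) ^ ((Pi.single i (1 : ZMod 3) : T → ZMod 3) k).val) ^
      ((m k : Fin 3) : ℕ) = (toC w) ^ ((m i : Fin 3) : ℕ) := by
    intro m
    rw [Finset.prod_eq_single i]
    · rw [Pi.single_eq_same, show (1 : ZMod 3).val = 1 from rfl, pow_one]
    · intro k _ hk
      rw [Pi.single_eq_of_ne hk, ZMod.val_zero, pow_zero, one_pow]
    · intro h'
      exact absurd (Finset.mem_univ _) h'
  rw [h3, h3] at h1
  exact toCw_inj h1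

/-- the number of characters -/
theorem card_chars (j : Ei ≃+* 𝓞 K) {T : Type} [Fintype T]
    {Φ : Additive (F ≃ₐ[K] F) ≃+ (T → ZMod 3)}
    {ρ : (F ≃ₐ[ℚ] F) →* Module.End ℂ V} {κ : Type} [Fintype κ] {b : Module.Basis κ ℂ V}
    {χ : κ → ((F ≃ₐ[K] F) →* ℂˣ)} {m : κ → T → Fin 3} (hE : Eig Φ ρ b χ m)
    (H : Subgroup (F ≃ₐ[ℚ] F)) (hH : ∀ σ, σ ∈ H ↔
      σ (algebraMap K F ((j w : 𝓞 K) : K)) = algebraMap K F ((j w : 𝓞 K) : K)) :
    (Finset.univ.image m).card = (chars H ρ).ncard := by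
  have hlift : ∀ σ : H, ∃ τ : F ≃ₐ[K] F, τ.restrictScalars ℚ = σ.1 := by
    intro σ
    obtain ⟨τ, hτ⟩ := lift_K j ((hH σ.1).1 σ.2)
    exact ⟨τ, AlgEquiv.ext hτ⟩
  choose lf hlf using hlift
  have hmem : ∀ τ : F ≃ₐ[K] F, τ.restrictScalars ℚ ∈ H := by
    intro τ
    rw [hH]
    show τ (algebraMap K F _) = _
    rw [AlgEquiv.commutes]
  have hlf2 : ∀ τ : F ≃ₐ[K] F, lf ⟨τ.restrictScalars ℚ, hmem τ⟩ = τ := by
    intro τ
    have := hlf ⟨τ.restrictScalars ℚ, hmem τ⟩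
    ext y
    have h2 := congrArg (fun f : F ≃ₐ[ℚ] F => f y) this
    exact h2
  let g : (T → Fin 3) → (H → ℂ) := fun ε σ =>
    ∏ i, ((toC w) ^ (Φ (Additive.ofMul (lf σ)) i).val) ^ ((ε i : Fin 3) : ℕ)
  have hg : Function.Injective g := by
    intro ε ε' h
    refine m_inj Φ fun τ => ?_
    have h2 := congrFun h ⟨τ.restrictScalars ℚ, hmem τ⟩
    simp only [g, hlf2] at h2
    exact h2
  have hset : chars H ρ = g '' (Finset.univ.image m : Finset (T → Fin 3)) := by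
    ext c
    constructor
    · rintro ⟨v, hv, h⟩
      obtain ⟨k, hk⟩ := eig_char hE hv (c := fun τ => c ⟨τ.restrictScalars ℚ, hmem τ⟩)
        (fun τ => h ⟨τ.restrictScalars ℚ, hmem τ⟩)
      refine ⟨m k, Finset.mem_coe.2 (Finset.mem_image_of_mem _ (Finset.mem_univ k)), ?_⟩
      funext σ
      show ∏ i, ((toC w) ^ (Φ (Additive.ofMul (lf σ)) i).val) ^ ((m k i : Fin 3) : ℕ) = c σ
      rw [← hE.val, ← hk (lf σ)]
      congr 1
      exact Subtype.ext (hlf σ)
    · rintro ⟨ε, hε, rfl⟩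
      obtain ⟨k, -, rfl⟩ := Finset.mem_image.1 (Finset.mem_coe.1 hε)
      refine ⟨b k, b.ne_zero k, fun σ => ?_⟩
      show ρ σ.1 (b k) = (∏ i, ((toC w) ^ (Φ (Additive.ofMul (lf σ)) i).val) ^
        ((m k i : Fin 3) : ℕ)) • b k
      rw [← hE.val, ← hE.eig, hlf]
  rw [hset, Set.ncard_image_of_injective _ hg, Set.ncard_coe_finset]

/-- the characters are closed under inversion -/
theorem eig_neg {I : K} (hI2 : I ^ 2 + I + 1 = 0) {T : Type} [Fintype T]
    {l : T → ℚ} {x : T → F}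
    (hx : ∀ i, x i ^ 3 = algebraMap ℚ F (l i)) (hl : ∀ i, l i ≠ 0)
    (hgen : ∀ S : Subfield F, algebraMap K F I ∈ S → (∀ i, x i ∈ S) → S = ⊤) [IsGalois ℚ F]
    {Φ : Additive (F ≃ₐ[K] F) ≃+ (T → ZMod 3)}
    {ρ : (F ≃ₐ[ℚ] F) →* Module.End ℂ V} {κ : Type} [Fintype κ] {b : Module.Basis κ ℂ V}
    {χ : κ → ((F ≃ₐ[K] F) →* ℂˣ)} {m : κ → T → Fin 3} (hE : Eig Φ ρ b χ m) (k : κ) :
    ∃ k', m k' = fun i => -(m k i) := by
  have hJ2 : (algebraMap K F I) ^ 2 + algebraMap K F I + 1 = 0 := by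
    rw [← map_pow, ← map_one (algebraMap K F), ← map_add, ← map_add, hI2, map_zero]
  obtain ⟨c, hc⟩ := exists_c hJ2
  have hcc := inv_c hJ2 hx hl hgen hc
  have hfix : ∀ τ : F ≃ₐ[K] F, (τ.restrictScalars ℚ) (algebraMap K F I) = algebraMap K F I :=
    fun τ => by
      show τ (algebraMap K F I) = _
      rw [AlgEquiv.commutes]
  have hv : ρ c (b k) ≠ 0 := by
    intro h
    have h1 : ρ c (ρ c (b k)) = b k := by
      rw [← Module.End.mul_apply, ← map_mul, hcc, map_one, Module.End.one_apply]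
    rw [h, map_zero] at h1
    exact b.ne_zero k h1.symm
  obtain ⟨k', hk'⟩ := eig_char hE hv (c := fun τ => ((χ k τ⁻¹ : ℂˣ) : ℂ)) (fun τ => by
    have h1 := conj_inv hJ2 hx hl hgen (hfix τ⁻¹) hc
    have h2 : (τ⁻¹).restrictScalars ℚ = (τ.restrictScalars ℚ)⁻¹ := rfl
    have h3 : c * (τ⁻¹).restrictScalars ℚ = τ.restrictScalars ℚ * c := by
      rw [h2, inv_inv] at h1
      rw [← h1, h2]
      group
    rw [← Module.End.mul_apply, ← map_mul, ← h3, map_mul, Module.End.mul_apply, hE.eig, map_smul])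
  refine ⟨k', m_inj Φ fun τ => ?_⟩
  rw [← hE.val, ← hk']
  show ((χ k τ⁻¹ : ℂˣ) : ℂ) = _
  rw [map_inv, Units.val_inv_eq_inv_val, hE.val, ← Finset.prod_inv_distrib]
  refine Finset.prod_congr rfl fun i _ => ?_
  have h5 : ∀ (a : Fin 3) (z : ℂ), z ^ 3 = 1 → (z ^ (a : ℕ))⁻¹ = z ^ ((-a : Fin 3) : ℕ) := by
    intro a z hz
    apply inv_eq_of_mul_eq_one_left
    rw [← pow_add]
    have h : ∀ a : Fin 3, ((-a : Fin 3) : ℕ) + (a : ℕ) = 0 ∨ ((-a : Fin 3) : ℕ) + (a : ℕ) = 3 := by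
      decide
    rcases h a with h | h
    · rw [h, pow_zero]
    · rw [h, hz]
  rw [h5 (m k i) _ (by rw [← pow_mul, mul_comm, pow_mul, toCw3, one_pow])]

/-- irreducible representations have dimension at most two -/
theorem irr_two {I : K} (hI2 : I ^ 2 + I + 1 = 0) {T : Type} [Fintype T]
    {l : T → ℚ} {x : T → F}
    (hx : ∀ i, x i ^ 3 = algebraMap ℚ F (l i)) (hl : ∀ i, l i ≠ 0)
    (hgen : ∀ S : Subfield F, algebraMap K F I ∈ S → (∀ i, x i ∈ S) → S = ⊤) [IsGalois ℚ F]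
    (hlift : ∀ σ : F ≃ₐ[ℚ] F, σ (algebraMap K F I) = algebraMap K F I →
      ∃ τ : F ≃ₐ[K] F, τ.restrictScalars ℚ = σ)
    {Φ : Additive (F ≃ₐ[K] F) ≃+ (T → ZMod 3)}
    {ρ : (F ≃ₐ[ℚ] F) →* Module.End ℂ V} {κ : Type} [Fintype κ] {b : Module.Basis κ ℂ V}
    {χ : κ → ((F ≃ₐ[K] F) →* ℂˣ)} {m : κ → T → Fin 3} (hE : Eig Φ ρ b χ m)
    (hirr : ∀ W : Submodule ℂ V, (∀ σ, ∀ v ∈ W, ρ σ v ∈ W) → W = ⊥ ∨ W = ⊤) :
    Fintype.card κ ≤ 2 := by
  by_cases hne : Nonempty κ
  · obtain ⟨k⟩ := hne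
    have hJ2 : (algebraMap K F I) ^ 2 + algebraMap K F I + 1 = 0 := by
      rw [← map_pow, ← map_one (algebraMap K F), ← map_add, ← map_add, hI2, map_zero]
    obtain ⟨c, hc⟩ := exists_c hJ2
    have hcc := inv_c hJ2 hx hl hgen hc
    have hfix : ∀ τ : F ≃ₐ[K] F, (τ.restrictScalars ℚ) (algebraMap K F I) = algebraMap K F I :=
      fun τ => by
        show τ (algebraMap K F I) = _
        rw [AlgEquiv.commutes]
    set W : Submodule ℂ V := Submodule.span ℂ ({b k, ρ c (b k)} : Set V) with hW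
    have hb : b k ∈ W := Submodule.subset_span (Set.mem_insert _ _)
    have hcb : ρ c (b k) ∈ W := Submodule.subset_span (Set.mem_insert_of_mem _ rfl)
    have hτ : ∀ τ : F ≃ₐ[K] F, ∀ v ∈ W, ρ (τ.restrictScalars ℚ) v ∈ W := by
      intro τ v hv
      have h3 : (W : Submodule ℂ V) ≤ W.comap (ρ (τ.restrictScalars ℚ)) := by
        rw [hW, Submodule.span_le]
        rintro y (rfl | rfl)
        · show ρ (τ.restrictScalars ℚ) (b k) ∈ W
          rw [hE.eig]
          exact W.smul_mem _ hb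
        · show ρ (τ.restrictScalars ℚ) (ρ c (b k)) ∈ W
          have h1 := conj_inv hJ2 hx hl hgen (hfix τ⁻¹) hc
          have h2 : (τ⁻¹).restrictScalars ℚ = (τ.restrictScalars ℚ)⁻¹ := rfl
          have h3 : c * (τ⁻¹).restrictScalars ℚ = τ.restrictScalars ℚ * c := by
            rw [h2, inv_inv] at h1
            rw [← h1, h2]
            group
          rw [← Module.End.mul_apply, ← map_mul, ← h3, map_mul, Module.End.mul_apply, hE.eig,
            map_smul]
          exact W.smul_mem _ hcb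
      exact h3 hv
    have hcW : ∀ v ∈ W, ρ c v ∈ W := by
      intro v hv
      have h3 : (W : Submodule ℂ V) ≤ W.comap (ρ c) := by
        rw [hW, Submodule.span_le]
        rintro y (rfl | rfl)
        · exact hcb
        · show ρ c (ρ c (b k)) ∈ W
          rw [← Module.End.mul_apply, ← map_mul, hcc, map_one]
          exact hb
      exact h3 hv
    have hst : ∀ σ, ∀ v ∈ W, ρ σ v ∈ W := by
      intro σ v hv
      rcases sJ hJ2 σ with h | h
      · obtain ⟨τ, rfl⟩ := hlift σ h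
        exact hτ τ v hv
      · have h4 : (σ * c) (algebraMap K F I) = algebraMap K F I := by
          rw [AlgEquiv.mul_apply, hc, map_pow, h]
          have h3 := J3 hJ2
          linear_combination (algebraMap K F I) * h3
        obtain ⟨τ, hτ'⟩ := hlift _ h4
        have h5 : σ = τ.restrictScalars ℚ * c := by
          rw [hτ', mul_assoc, hcc, mul_one]
        rw [h5, map_mul, Module.End.mul_apply]
        exact hτ τ _ (hcW v hv)
    rcases hirr W hst with h | h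
    · exfalso
      rw [h, Submodule.mem_bot] at hb
      exact b.ne_zero k hb
    · have h1 : Module.finrank ℂ V = Fintype.card κ := Module.finrank_eq_card_basis b
      rw [← h1, ← finrank_top ℂ V, ← h, hW]
      refine (finrank_span_le_card (R := ℂ) ({b k, ρ c (b k)} : Set V)).trans ?_
      rw [Set.toFinset_card]
      refine (Fintype.card_le_of_embedding ?_ : _ ≤ Fintype.card (Fin 2)).trans_eq (Fintype.card_fin 2)
      have : Set.ncard ({b k, ρ c (b k)} : Set V) ≤ 2 := Set.ncard_insert_le _ _ |>.trans (by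
        rw [Set.ncard_singleton])
      have h6 : Fintype.card ({b k, ρ c (b k)} : Set V) ≤ Fintype.card (Fin 2) := by
        rw [Fintype.card_fin, ← Nat.card_eq_fintype_card]
        exact this
      exact (Function.Embedding.nonempty_of_card_le h6).some
  · rw [not_nonempty_iff] at hne
    rw [Fintype.card_eq_zero]
    norm_num

end

end Pool.Agent.X253.MN
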