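import Pool.Agent.X253.MN.A3

/-!
# The multiplicities and the `L`-functions of the representations of `Gal(F / ℚ)`
-/

set_option autoImplicit false
set_option linter.unusedVariables false
set_option linter.unusedSectionVars false

namespace Pool.Agent.X253.MN

open NumberField IsDedekindDomain WeierstrassCurve
open Pool.Agent.Y692.QS (Ei w nr toC toC_inj ns mul_star toC_normSq)
open Pool.Agent.Y715.T.Rec (cs nn)
open Pool.Agent.Y715.T.RecG (Pq cs_spec cs_uniq)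
open Pool.Agent.Y703.CT (WD Cls NoSplit IsL)
open Pool.Agent.Y703.CT
open Pool.Agent.W97.MT (ap)
open Pool.Agent.Y696.CTK
open Pool.Agent.Y696.CT
open Pool.Agent.X253.C3
open scoped TensorProduct

theorem ker_of_ns {N : ℕ} (hD : Cls N) (hN : NoSplit N) :
    ∃ (J : Type) (_ : Fintype J) (_ : Nonempty J) (π : J → Ei) (e : J → ZMod 3), Dt π e ∧
      Ker π e ∧ (((N : ℕ) : Ei) = pD π e ∨ ((N : ℕ) : Ei) = -pD π e) := by
  obtain ⟨n, π, e, hdt, hDp⟩ := Pool.Agent.Y274.CT.t_exi N hD.1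
  have hk : Ker π e := Pool.Agent.Y405.CT.cri Pool.Agent.Y350.CT.rec N hD hN (Fin n) π e hdt hDp
  obtain ⟨j₀, hj₀⟩ := Pool.Agent.Y405.CT.fixed hD hdt hDp
  exact ⟨Fin n, inferInstance, ⟨j₀⟩, π, e, hdt, hk, hDp⟩

section act

variable {F : Type} [Field F] [NumberField F] [DecidableEq F]

/-- The action of `σ` on `ℂ ⊗ E(F)`. -/
noncomputable def act (E : WeierstrassCurve ℚ) (σ : F ≃ₐ[ℚ] F) :
    ℂ ⊗[ℤ] (E.baseChange F).toAffine.Point →ₗ[ℂ] ℂ ⊗[ℤ] (E.baseChange F).toAffine.Point :=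
  (Affine.Point.map (W' := E.toAffine) (σ : F →ₐ[ℚ] F)).toIntLinearMap.baseChange ℂ

theorem trans_pts {W W' : WeierstrassCurve F} (h : W = W') :
    ∃ e : W.toAffine.Point ≃+ W'.toAffine.Point, ∀ P, co (e P) = co P := by
  subst h
  exact ⟨AddEquiv.refl _, fun _ => rfl⟩

lemma co_map (E : WeierstrassCurve ℚ) (σ : F ≃ₐ[ℚ] F) (P : (E.baseChange F).toAffine.Point) :
    co (Affine.Point.map (W' := E.toAffine) (σ : F →ₐ[ℚ] F) P) =
      (co P).map fun p => (σ p.1, σ p.2) := by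
  match P with
  | 0 => rfl
  | .some X Y h => rfl

lemma co_B {d : F} (φ : F →+* F) (hφ : φ d = d) (P : (Ec d).toAffine.Point) :
    co (B φ 1 hφ (one_pow 3) P) = (co P).map fun p => (φ p.1, φ p.2) := by
  match P with
  | 0 => rfl
  | .some X Y h =>
    obtain ⟨g1, e1⟩ := B_some φ 1 hφ (one_pow 3) X Y h
    rw [e1]
    show some (φ X * 1 ^ 2, φ Y * 1 ^ 3) = some (φ X, φ Y)
    rw [one_pow, one_pow, mul_one, mul_one]

end act

section

variable {K F : Type} [Field K] [NumberField K] [Field F] [NumberField F] [Algebra K F]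
  {V : Type} [AddCommGroup V] [Module ℂ V]

theorem finK (j : Ei ≃+* 𝓞 K) {N : ℕ} (hC : Cls N) (hN : NoSplit N) :
    Finite (Ec ((N : ℕ) : K)).toAffine.Point := by
  obtain ⟨J, hJf, hJn, π, e, hdt, hk, hpm⟩ := ker_of_ns hC hN
  have h9 := nine_nat hC hpm
  have hT := ((tri_iffE j hdt h9).2 hk).1
  have h1 := sgn_val hdt hC.1.2.1 hpm
  have h3 : ((j (pD π e) : 𝓞 K) : K) = ((sgn3 N * N : ℤ) : K) := by
    rw [h1, map_intCast]
    exact map_intCast (algebraMap (𝓞 K) K) _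
  have h4 : Finite (Ec ((sgn3 N * N : ℤ) : K)).toAffine.Point := by
    rw [← h3]
    exact hT
  unfold sgn3 at h4
  split_ifs at h4 with h
  · push_cast at h4
    rwa [one_mul] at h4
  · push_cast at h4
    rw [neg_one_mul] at h4
    exact fin_neg (by exact_mod_cast hC.1.1) h4

/-- powers of the root of unity -/
lemma J_pow {L : Type} [Field L] {J : L} (h3 : J ^ 3 = 1) (n : ℕ) :
    J ^ n = J ^ ((n : ZMod 3)).val := by
  rw [ZMod.val_natCast]
  conv_lhs => rw [← Nat.div_add_mod n 3]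
  rw [pow_add, pow_mul, h3, one_pow, one_mul]

lemma J_prod {L T : Type} [Field L] [Fintype T] {J : L} (h3 : J ^ 3 = 1) (y : T → ZMod 3)
    (m : T → Fin 3) : ∏ i, (J ^ (y i).val) ^ ((m i : Fin 3) : ℕ) =
      J ^ (∑ i, y i * (((m i : Fin 3) : ℕ) : ZMod 3)).val := by
  have h1 : ∏ i, (J ^ (y i).val) ^ ((m i : Fin 3) : ℕ) =
      J ^ (∑ i, (y i).val * ((m i : Fin 3) : ℕ)) := by
    rw [← Finset.prod_pow_eq_pow_sum]
    refine Finset.prod_congr rfl fun i _ => ?_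
    rw [← pow_mul]
  rw [h1, J_pow h3]
  congr 2
  push_cast
  refine Finset.sum_congr rfl fun i _ => ?_
  rw [ZMod.natCast_zmod_val]

/-- **The multiplicities.** -/
theorem hom0 [DecidableEq F] [IsGalois ℚ F] (j : Ei ≃+* 𝓞 K) {T : Type} [Fintype T] {pr : T → ℕ}
    (hpr : ∀ i, (pr i).Prime) {D : ℕ} (hD0 : D ≠ 0)
    {x : T → F} (hx : ∀ i, x i ^ 3 = ((pr i : ℕ) : F))
    (hgen : ∀ S : Subfield F, algebraMap K F ((j w : 𝓞 K) : K) ∈ S →
      (∀ i, x i ∈ S) → S = ⊤)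
    {Φ : Additive (F ≃ₐ[K] F) ≃+ (T → ZMod 3)}
    (hΦ : ∀ (σ : F ≃ₐ[K] F) (i : T),
      σ (x i) = (algebraMap K F ((j w : 𝓞 K) : K)) ^ (Φ (Additive.ofMul σ) i).val * x i)
    {ρ : (F ≃ₐ[ℚ] F) →* Module.End ℂ V} {κ : Type} [Fintype κ] {b : Module.Basis κ ℂ V}
    {χ : κ → ((F ≃ₐ[K] F) →* ℂˣ)} {m : κ → T → Fin 3} (hE : Eig Φ ρ b χ m)
    (hall : ∀ k, Cls (DN D pr (m k)) ∧ NoSplit (DN D pr (m k)))
    (f : V →ₗ[ℂ] ℂ ⊗[ℤ] ((Ec ((D : ℕ) : ℚ)).baseChange F).toAffine.Point)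
    (hf : ∀ σ v, f (ρ σ v) = act (Ec ((D : ℕ) : ℚ)) σ (f v)) : f = 0 := by
  set I : K := ((j w : 𝓞 K) : K) with hI
  have hI2 : I ^ 2 + I + 1 = 0 := by
    have h1 : (w : Ei) ^ 2 + w + 1 = 0 := by decide
    have h2 := congrArg (fun t : Ei => ((j t : 𝓞 K) : K)) h1
    simp only [map_add, map_pow, map_one, map_zero] at h2
    exact h2
  have hJ2 : (algebraMap K F I) ^ 2 + algebraMap K F I + 1 = 0 := by
    rw [← map_pow, ← map_one (algebraMap K F), ← map_add, ← map_add, hI2, map_zero]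
  set J : F := algebraMap K F I with hJ
  have hJ3 : J ^ 3 = 1 := J3 hJ2
  have hfd : FiniteDimensional K F := Pool.Agent.Y715.CS.finKF
  have _ : Fintype (F ≃ₐ[K] F) := Fintype.ofFinite _
  have hlq0 : ∀ i, ((pr i : ℕ) : ℚ) ≠ 0 := fun i => by exact_mod_cast (hpr i).ne_zero
  have hxq : ∀ i, x i ^ 3 = algebraMap ℚ F ((pr i : ℕ) : ℚ) := fun i => by
    rw [hx, map_natCast]
  have hx0 : ∀ i, x i ≠ 0 := by
    intro i h0
    have h1 := hx i
    rw [h0, zero_pow (by norm_num)] at h1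
    exact (hpr i).ne_zero (by exact_mod_cast h1.symm)
  -- the curves
  have hcur : (Ec ((D : ℕ) : ℚ)).baseChange F = Ec (algebraMap K F ((D : ℕ) : K)) := by
    unfold Ec WeierstrassCurve.baseChange WeierstrassCurve.map
    simp
  obtain ⟨e, he⟩ := trans_pts hcur
  have hdne : algebraMap K F ((D : ℕ) : K) ≠ 0 := by
    rw [map_natCast]
    exact_mod_cast hD0
  have hd : ∀ σ : F ≃ₐ[K] F, ((σ : F ≃+* F) : F →+* F) (algebraMap K F ((D : ℕ) : K)) =
      algebraMap K F ((D : ℕ) : K) := fun σ => σ.commutes _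
  let Z : ((Ec ((D : ℕ) : ℚ)).baseChange F).toAffine.Point →+
      ((Ec ((D : ℕ) : ℚ)).baseChange F).toAffine.Point :=
    (e.symm.toAddMonoidHom.comp (B (RingHom.id F) J rfl hJ3)).comp e.toAddMonoidHom
  have hZe : ∀ P, e (Z P) = B (RingHom.id F) J rfl hJ3 (e P) := fun P => e.apply_symm_apply _
  have hZn : ∀ (n : ℕ) P, e ((Z^[n]) P) = ((B (RingHom.id F) J rfl hJ3)^[n]) (e P) := by
    intro n
    induction n with
    | zero => exact fun P => rfl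
    | succ n ih =>
      intro P
      rw [Function.iterate_succ_apply', Function.iterate_succ_apply', hZe, ih]
  let S : (F ≃ₐ[K] F) → ((Ec ((D : ℕ) : ℚ)).baseChange F).toAffine.Point →+
      ((Ec ((D : ℕ) : ℚ)).baseChange F).toAffine.Point := fun τ =>
    Affine.Point.map (W' := (Ec ((D : ℕ) : ℚ)).toAffine) ((τ.restrictScalars ℚ : F ≃ₐ[ℚ] F) : F →ₐ[ℚ] F)
  have hSe : ∀ τ P, e (S τ P) = B ((τ : F ≃+* F) : F →+* F) 1 (hd τ) (one_pow 3) (e P) := by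
    intro τ P
    apply co_inj
    rw [he, co_B, he]
    exact co_map _ _ P
  -- the general statement on sums
  have hsum : ∀ (m' : T → Fin 3) (hm' : Cls (DN D pr m') ∧ NoSplit (DN D pr m'))
      (a : (F ≃ₐ[K] F) → ZMod 3)
      (ha : ∀ τ, a τ = ∑ i, Φ (Additive.ofMul τ) i * (((m' i : Fin 3) : ℕ) : ZMod 3)) P,
      ∃ n : ℕ, n ≠ 0 ∧ n • (∑ τ, (Z^[(a τ).val]) (S τ P)) = 0 := by
    intro m' hm' a ha P
    have hW : ∀ τ : F ≃ₐ[K] F, J ^ (a τ).val =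
        ∏ i, (τ (x i) / x i) ^ ((m' i : Fin 3) : ℕ) := by
      intro τ
      rw [ha, ← J_prod hJ3]
      refine Finset.prod_congr rfl fun i _ => ?_
      rw [hΦ, mul_div_cancel_right₀ _ (hx0 i)]
    have hW3 : ∀ τ : F ≃ₐ[K] F, (J ^ (a τ).val) ^ 3 = 1 := fun τ => by
      rw [← pow_mul, mul_comm, pow_mul, hJ3, one_pow]
    obtain ⟨n, hn, h0⟩ := pr_tors I hI2 (fun i => ((pr i : ℕ) : K))
      (fun i => by exact_mod_cast (hpr i).ne_zero) x (fun i => by rw [hx, map_natCast])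
      (fun S h1 h2 => hgen S (h1 _) h2) ((D : ℕ) : K) (by exact_mod_cast hD0) m'
      (by
        have h1 := finK j hm'.1 hm'.2
        unfold DN at h1
        push_cast at h1
        exact h1)
      (fun τ => J ^ (a τ).val) hW hW3 hd (e P)
    refine ⟨n, hn, ?_⟩
    apply e.injective
    rw [map_nsmul, map_zero, map_sum, ← h0]
    congr 1
    refine Finset.sum_congr rfl fun τ _ => ?_
    rw [hZn, hSe]
    exact Z_iter hJ3 _ (hd τ) _ _ (hW3 τ) rfl _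
  refine b.ext fun k => ?_
  rw [LinearMap.zero_apply]
  obtain ⟨k', hk'⟩ := eig_neg hI2 hxq hlq0 hgen hE k
  have hneg : ∀ a : Fin 3, (((-a : Fin 3) : ℕ) : ZMod 3) = -(((a : Fin 3) : ℕ) : ZMod 3) := by
    decide
  refine abs0 S Z (fun P => ?_) (fun τ P => ?_)
    (fun τ => ∑ i, Φ (Additive.ofMul τ) i * (((m k i : Fin 3) : ℕ) : ZMod 3))
    (hsum (m k) (hall k) _ fun τ => rfl)
    (hsum (m k') (hall k') _ fun τ => ?_) (ζ := toC w) toCw (f (b k)) (fun τ => ?_)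
  · apply e.injective
    rw [map_add, map_add, hZe, hZe, hZe, map_zero]
    exact Z_zero hdne hJ2 hJ3 (e P)
  · apply e.injective
    rw [hZe, hSe, hSe, hZe]
    exact Z_comm hJ3 _ (hd τ) (τ.commutes I) _
  · rw [hk', ← Finset.sum_neg_distrib]
    refine Finset.sum_congr rfl fun i _ => ?_
    rw [hneg, mul_neg]
  · have h1 := hf (τ.restrictScalars ℚ) (b k)
    rw [hE.eig, map_smul, hE.val, J_prod (L := ℂ) toCw3] at h1
    exact h1.symm

/-- the `L`-functions -/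
theorem repL2 [FiniteDimensional ℂ V] (j : Ei ≃+* 𝓞 K) {T : Type} [Fintype T] {pr : T → ℕ}
    (hpr : ∀ i, (pr i).Prime) {D : ℕ}
    {x : T → F} (hx : ∀ i, x i ^ 3 = ((pr i : ℕ) : F))
    (hgen : ∀ S : Subfield F, algebraMap K F ((j w : 𝓞 K) : K) ∈ S →
      (∀ i, x i ∈ S) → S = ⊤)
    (hgal : IsGalois ℚ F) {M : ℕ} (hM : M ≠ 0) (h3M : 3 ∣ M) (hDM : D ∣ M) (hpM : ∀ i, pr i ∣ M)
    {Φ : Additive (F ≃ₐ[K] F) ≃+ (T → ZMod 3)}
    (hΦ : ∀ (σ : F ≃ₐ[K] F) (i : T),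
      σ (x i) = (algebraMap K F ((j w : 𝓞 K) : K)) ^ (Φ (Additive.ofMul σ) i).val * x i)
    {ρ : (F ≃ₐ[ℚ] F) →* Module.End ℂ V} {κ : Type} [Fintype κ] {b : Module.Basis κ ℂ V}
    {χ : κ → ((F ≃ₐ[K] F) →* ℂˣ)} {m : κ → T → Fin 3} (hE : Eig Φ ρ b χ m)
    (hall : ∀ k, Cls (DN D pr (m k)) ∧ NoSplit (DN D pr (m k))) :
    ∃ L : ℂ → ℂ, Differentiable ℂ L ∧ L 1 ≠ 0 ∧
      ∀ σ : ℕ → (F ≃ₐ[ℚ] F),
        (∀ p : ℕ, p.Prime → ¬ p ∣ M → ∃ u, IsFrobQ (σ p) p u) → ∀ s : ℂ, 3 / 2 < s.re →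
          HasProd (fun p : {p : Nat.Primes // ¬ (p : ℕ) ∣ M} =>
            LFac ρ (σ p.1) (ap (WD (D : ℤ)) (p.1 : ℕ)) (p.1 : ℕ) s) (L s) := by
  classical
  set I : K := ((j w : 𝓞 K) : K) with hI
  have hI2 : I ^ 2 + I + 1 = 0 := by
    have h1 : (w : Ei) ^ 2 + w + 1 = 0 := by decide
    have h2 := congrArg (fun t : Ei => ((j t : 𝓞 K) : K)) h1
    simp only [map_add, map_pow, map_one, map_zero] at h2
    exact h2
  have hJ2 : (algebraMap K F I) ^ 2 + algebraMap K F I + 1 = 0 := by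
    rw [← map_pow, ← map_one (algebraMap K F), ← map_add, ← map_add, hI2, map_zero]
  set J : F := algebraMap K F I with hJ
  have hint : ∀ i : T, _root_.IsIntegral ℤ (x i) := by
    intro i
    have h1 : _root_.IsIntegral ℤ ((x i) ^ 3) := by
      rw [hx i]
      have h2 := isIntegral_algebraMap (R := ℤ) (A := F) (x := ((pr i : ℕ) : ℤ))
      rwa [eq_intCast, Int.cast_natCast] at h2
    exact _root_.IsIntegral.of_pow (by norm_num) h1
  set xo : T → 𝓞 F := fun i => ⟨x i, hint i⟩ with hxo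
  have hx3 : ∀ i, xo i ^ 3 = algebraMap (𝓞 K) (𝓞 F) (j ((pr i : ℕ) : Ei)) := by
    intro i
    rw [map_natCast, map_natCast]
    apply RingOfIntegers.ext
    have h2 : ((xo i ^ 3 : 𝓞 F) : F) = x i ^ 3 := map_pow (algebraMap (𝓞 F) F) _ _
    rw [h2, hx i]
    exact (map_natCast (algebraMap (𝓞 F) F) _).symm
  have hlq0 : ∀ i, ((pr i : ℕ) : ℚ) ≠ 0 := fun i => by exact_mod_cast (hpr i).ne_zero
  have hxq : ∀ i, x i ^ 3 = algebraMap ℚ F ((pr i : ℕ) : ℚ) := fun i => by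
    rw [hx, map_natCast]
  choose L hL1 hL2 hL3 using fun k : κ => l_out (hall k).1 (hall k).2 hM h3M
    (fun p hp hpN => by
      unfold DN at hpN
      rcases hp.dvd_mul.1 hpN with h | h
      · exact h.trans hDM
      · obtain ⟨i, -, hi⟩ := (hp.prime.dvd_finsetProd_iff _).1 h
        exact (hp.dvd_of_dvd_pow hi).trans (hpM i))
  refine ⟨fun s => ∏ k, L k s, Differentiable.fun_finsetProd fun k _ => hL1 k,
    Finset.prod_ne_zero_iff.2 fun k _ => hL2 k, fun σ hσ s hs => ?_⟩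
  have key := hasProd_prod (s := (Finset.univ : Finset κ))
    (f := fun k (p : {p : Nat.Primes // ¬ (p : ℕ) ∣ M}) => fQ (DN D pr (m k)) s (p.1 : ℕ))
    (a := fun k => L k s) (fun k _ => hL3 k s hs)
  refine key.congr_fun fun p => ?_
  obtain ⟨u, hu⟩ := hσ (p.1 : ℕ) p.1.2 p.2
  have hp3 : (p.1 : ℕ) ≠ 3 := by
    intro h
    apply p.2
    rw [h]
    exact h3M
  have hmod : (p.1 : ℕ) % 3 = 1 ∨ (p.1 : ℕ) % 3 = 2 := by
    have h4 : ¬ 3 ∣ (p.1 : ℕ) := fun hd =>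
      hp3 ((Nat.prime_dvd_prime_iff_eq Nat.prime_three p.1.2).1 hd).symm
    omega
  rcases hmod with h1 | h2
  · exact lfac_split j (fun i => (hpr i).ne_zero) hx3 hgen hgal Φ hΦ ρ b χ hE.eig m hE.val p.1.2 h1 hu
      (fun h => p.2 (h.trans hDM)) (fun i h => p.2 (h.trans (hpM i))) s
  · exact lfac_inert hJ2 hxq hlq0 hgen ρ b p.1.2 h2 hu D (fun k => DN D pr (m k)) s

end

end Pool.Agent.X253.MN
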